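import Pool.Agent.H70.PX.Evn
import Pool.Agent.H70.EI.Stmt

/-!
# The language `plang k` is in the level `k + 1`
-/

set_option autoImplicit false

namespace Pool.Agent.H87.QP

open Pool.Agent.H6.NB Pool.Agent.H70.OQ Pool.Agent.H70.EI Pool.Agent.H70.PX

/-- For every `k` the language `plang k O` is in the level `k + 1` relative to every oracle `O`. -/
theorem plm (k : ℕ) : ∃ F : Machine (k + 1), ∀ O, F.lang O = plang k O := by
  refine ⟨machc k (fun _ => true) (fun _ => false), fun O => ?_⟩
  ext x
  rw [machc_lang]
  simp [plang]

end Pool.Agent.H87.QP
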