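import Pool.Agent.H87.QP.Targets

/-!
# The smallest eigenvalue of the local correlation matrices of Liouville's function
(MP_c59857_nt), theorem (RZ): statements

`fl lam H L q n c` is the mean over the window `(n, n + L]` of
`|∑ h ≤ H, c h lam (x + q h)| ^ 2`, `ps lam H L q n` is its infimum over the filters `c` of
`ℓ²` norm one.
-/

set_option autoImplicit false

namespace Pool.Agent.H87.QP

open Finset Pool.Agent.H18.MR Pool.Agent.H93.DE Pool.Agent.H6.N4D Pool.Agent.H93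
  Pool.Agent.H93.ES Pool.Agent.H28.NW

/-- the mean square of the filter `c` at the shifts `0, q, …, H q` on the window `(n, n + L]` -/
noncomputable def fl (lam : ℕ → ℝ) (H L q n : ℕ) (c : ℕ → ℂ) : ℝ :=
  (∑ m ∈ Ioc n (n + L), ‖∑ h ∈ range (H + 1), c h * (lam (m + q * h) : ℂ)‖ ^ 2) / L

/-- the filters of `ℓ²` norm one -/
def Flt (H : ℕ) (c : ℕ → ℂ) : Prop := (∀ h, ‖c h‖ ≤ 1) ∧ ∑ h ∈ range (H + 1), ‖c h‖ ^ 2 = 1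

/-- the smallest mean square of a filter of `ℓ²` norm one, that is, the smallest eigenvalue of the
correlation matrix of the window -/
noncomputable def ps (lam : ℕ → ℝ) (H L q n : ℕ) : ℝ :=
  ⨅ c : {c : ℕ → ℂ // Flt H c}, fl lam H L q n c

/-- PSB. The basic properties of `ps`. -/
def T_PSB : Prop := ∀ (lam : ℕ → ℝ) (H L q n : ℕ), (∀ n, lam n = 1 ∨ lam n = -1) → 1 ≤ L →
  0 ≤ ps lam H L q n ∧ ps lam H L q n ≤ 1 ∧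
  (∀ c : ℕ → ℂ, 1 ≤ ∑ h ∈ range (H + 1), ‖c h‖ ^ 2 → ps lam H L q n ≤ fl lam H L q n c) ∧
  ∀ δ : ℝ, 0 < δ → ∃ c : ℕ → ℂ, Flt H c ∧ fl lam H L q n c ≤ ps lam H L q n + δ

/-- MPS. The relations pass down to shorter windows. -/
def T_MPS : Prop := ∀ (lam : ℕ → ℝ) (H L L' q n : ℕ), (∀ n, lam n = 1 ∨ lam n = -1) → 1 ≤ L' →
  L' ≤ L →
  (∑ u ∈ Ioc n (n + L), ps lam H L' q u) / L ≤
    ps lam H L q n + 2 * ((H : ℝ) + 1) ^ 2 * L' / L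

/-- LPS. The same for the logarithmic means. -/
def T_LPS : Prop := ∀ (lam : ℕ → ℝ) (H L L' q : ℕ) (X : Wn), (∀ n, lam n = 1 ∨ lam n = -1) →
  1 ≤ L' → L' ≤ L →
  wlg X (fun n => ps lam H L' q n) ≤ wlg X (fun n => ps lam H L q n) + 10 * (1 + Real.log L) +
    2 * ((H : ℝ) + 1) ^ 2 * L' / L * (1 + X.L)

/-- DPS. Dilation: a filter at the shifts `h` on the window `(n / q, n / q + T / q]` and the same
filter at the shifts `q h` on the window `(n, n + T]`. -/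
def T_DPS : Prop := ∀ (lam : ℕ → ℝ) (H T q n : ℕ) (c : ℕ → ℂ), Lio lam → q.Prime → q ≤ T →
  (∀ h, ‖c h‖ ≤ 1) →
  fl lam H T q n c ≤ fl lam H (T / q) 1 (n / q) c +
    2 * ((H : ℝ) + 1) * ∑ k ∈ Icc 1 H, |tq lam q T k n| + 20 * ((H : ℝ) + 1) ^ 3 * q / T

/-- SF1. Relations between the multiples of the primes of one level. -/
def T_SF1 : Prop := ∀ (H W₀ : ℕ) (c : ℝ), 0 < c → ∃ (Ls W₁ : ℕ) (X₀ : ℝ), 1 ≤ Ls ∧
  ∀ (X : Wn) (lam : ℕ → ℝ), X₀ ≤ X.L → Lio lam →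
  wlg X (fun n => ps lam H Ls 1 n) ≤ c * X.L →
  ∃ w, W₀ ≤ w ∧ w ≤ W₁ ∧ ∑ q ∈ EB.QQ w, 1 / (q : ℝ) * wlg X (fun n => ps lam H (2 ^ w) q n) ≤
    2 * c * (∑ q ∈ EB.QQ w, 1 / (q : ℝ)) * X.L

/-- SFO. Relations between the multiples of the primes of one octave. -/
def T_SFO : Prop := ∀ (H m₀ : ℕ) (c : ℝ), 0 < c → ∃ (Ls W₁ : ℕ) (X₀ : ℝ), 1 ≤ Ls ∧
  ∀ (X : Wn) (lam : ℕ → ℝ), X₀ ≤ X.L → Lio lam →
  wlg X (fun n => ps lam H Ls 1 n) ≤ c * X.L →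
  ∃ m w : ℕ, m₀ ≤ m ∧ 2 * m ≤ w ∧ w ≤ W₁ ∧
    ∑ q ∈ oct m, wlg X (fun n => ps lam H (2 ^ w) q n) ≤ 4 * c * (oct m).card * X.L

/-- RZF. The deterministic end (helper93): a window on which, for the primes `q` of an octave in
the mean, there is a linear relation between the shifts by the multiples of `q`, is near to sums of
boundedly many exponentials on its short subwindows. -/
def T_RZF : Prop := ∀ (H : ℕ) (τ : ℝ), 0 < τ → ∃ R B m₀ : ℕ, 1 ≤ B ∧ ∀ m w : ℕ, m₀ ≤ m →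
  2 * m ≤ w → ∀ f : ℕ → ℂ, (∀ n, ‖f n‖ ≤ 1) → ∀ c : ℕ → ℕ → ℂ,
  (∀ q, 1 ≤ ∑ h ∈ range (H + 1), ‖c q h‖ ^ 2) →
  ∀ n : ℕ, ∃ (b : ℕ → ℕ → ℂ) (β : ℕ → ℕ → ℝ), (∀ t r, ‖b t r‖ ≤ 1) ∧
  (∑ t ∈ range (2 ^ w), (∑ h ∈ Icc 1 (B * 2 ^ m), ‖f (n + t + h) - ∑ r ∈ range R,
      b t r * Complex.exp (2 * Real.pi * Complex.I * (β t r * h))‖ ^ 2) / (B * 2 ^ m)) / 2 ^ w ≤
    2 * ((∑ q ∈ oct m, (∑ t ∈ range (2 ^ w),
      ‖∑ h ∈ range (H + 1), c q h * f (n + t + q * h)‖ ^ 2) / 2 ^ w) / (oct m).card) + τ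

/-- RZB. The same in the notation of this page. -/
def T_RZB : Prop := ∀ (H : ℕ) (τ : ℝ), 0 < τ → ∃ R B m₀ : ℕ, 1 ≤ B ∧ ∀ m w : ℕ, m₀ ≤ m →
  2 * m ≤ w → ∀ lam : ℕ → ℝ, (∀ n, lam n = 1 ∨ lam n = -1) → ∀ c : ℕ → ℕ → ℂ,
  (∀ q, 1 ≤ ∑ h ∈ range (H + 1), ‖c q h‖ ^ 2) →
  ∀ n : ℕ, ∃ (b : ℕ → ℕ → ℂ) (β : ℕ → ℕ → ℝ), (∀ t r, ‖b t r‖ ≤ 1) ∧
  (∑ t ∈ range (2 ^ w), (∑ x ∈ Ioc (n + 1 + t) (n + 1 + t + B * 2 ^ m), ‖(lam x : ℂ) -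
      ∑ r ∈ range R, b t r * ee (β t r * x)‖ ^ 2) / ((B * 2 ^ m : ℕ) : ℝ)) / 2 ^ w ≤
    2 * ((∑ q ∈ oct m, fl lam H (2 ^ w) q n (c q)) / (oct m).card) + τ

/-- RZL. The theorem: absolute constants `c` and `K`, coefficients chosen after the window. -/
def T_RZL : Prop := ∃ (c : ℝ) (K : ℕ), 0 < c ∧ ∀ H : ℕ, ∃ L₀ : ℕ, ∀ (X : Wn) (L : ℕ)
  (lam : ℕ → ℝ), L₀ ≤ L → K * Real.log L ≤ X.L → Lio lam →
  ∀ a : ℕ → ℕ → ℂ, (∀ n, 1 ≤ ∑ h ∈ range (H + 1), ‖a n h‖ ^ 2) →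
  c * X.L < wlg X (fun n => fl lam H L 1 n (a n))

end Pool.Agent.H87.QP
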