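import Pool.Agent.H87.QP.Targets2

/-!
# Theorem (RZ), MP_c59857_nt, for multiplicative functions with values in the unit disc: statements

The entropy rows for a pair of fields of signs, the passage to complex valued functions by digits,
and the theorem for a class of multiplicative functions which satisfies (H0).
-/

set_option autoImplicit false

namespace Pool.Agent.H87.QP

open Finset Pool.Agent.H18.MR Pool.Agent.H93.DE Pool.Agent.H6.N4D Pool.Agent.H93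
  Pool.Agent.H93.ES Pool.Agent.H28.NW

/-! ## 1. Words over a finite alphabet -/

/-- the field of the tuples of the letters at the distances `d` -/
def tupg {γ : Type} {N R : ℕ} (x : ZMod N → γ) (d : Fin R → ℕ) (n : ZMod N) : Fin R → γ :=
  fun r => x (n + (d r : ZMod N))

/-- the product of `f` and of the translate of `g` by `q h` -/
def fg (f g : ℕ → ℝ) (q h t : ℕ) : ℝ := f t * g (t + q * h)

/-- the information of the samples of a window of length `2 ^ w`, words of length `2 ^ (m + c)` -/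
noncomputable def infg {γ : Type} [Fintype γ] [DecidableEq γ] {N : ℕ} [NeZero N]
    (x : ZMod N → γ) (w c : ℕ) : ℝ :=
  ∑ m ∈ Ico (w / 400) (w / 200), avE (2 ^ rho w) (2 ^ (w - rho w)) (fun e =>
    info (tupg x (pos e)) (2 ^ (m + c)) (primorial (2 ^ m)) (pr m)) / (2 ^ rho w * 2 ^ (m + c))

/-- SAG. A tuple of words has at most the entropy of its words. -/
def T_SAG : Prop := ∀ (γ : Type) [Fintype γ] [DecidableEq γ] (N R L M : ℕ) [NeZero N]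
  (x : ZMod N → γ) (d : Fin R → ℕ), 0 < M → M ∣ N → hc (tupg x d) L M ≤ R * hc x L M

/-- MNG. Long words, more primes. -/
def T_MNG : Prop := ∀ (γ : Type) [Fintype γ] [DecidableEq γ] (N k L M M' : ℕ) [NeZero N]
  (x : ZMod N → γ), 0 < M' → M ∣ M' → M' ∣ N → hc x (k * L) M' ≤ k * hc x L M

/-- EDG. The long word is covered by samples. -/
def T_EDG : Prop := ∀ (γ : Type) [Fintype γ] [DecidableEq γ] (N R D L M : ℕ) [NeZero N]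
  (x : ZMod N → γ), 0 < M → M ∣ N → 0 < D → 0 < L → L ∣ D →
  hc x (R * D) M ≤ D / L * avE R D (fun e => hc (tupg x (pos e)) L M) +
    R * L * Real.log (Fintype.card γ)

/-- CHG. All levels: the sum of the information of the samples is bounded. -/
def T_CHG : Prop := ∀ (γ : Type) [Fintype γ] [DecidableEq γ] (N K c : ℕ) [NeZero N]
  (x : ZMod N → γ) (w : ℕ → ℕ), 10 ^ 5 + 100 * c ≤ w 0 →
  (∀ j, j + 1 < K → 400 * w j ≤ w (j + 1)) → (∀ j < K, primorial (2 ^ (w j / 200)) ∣ N) →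
  ∑ j ∈ range K, infg x (w j) c ≤ 2 * Real.log (Fintype.card γ)

/-- DVG. The inequality of Donsker and Varadhan for the primes of one octave. -/
def T_DVG : Prop := ∀ (γ : Type) [Fintype γ] [DecidableEq γ] (N R m L : ℕ) [NeZero N]
  (x : ZMod N → γ) (d : Fin R → ℕ) (t : ℕ → (Fin L → Fin R → γ) → ℕ → ℝ),
  primorial (2 ^ (m + 1)) ∣ N →
  avZ (fun n => ∑ q ∈ oct m, t q (wd (tupg x d) L n) (n.val % q)) ≤
    info (tupg x d) L (primorial (2 ^ m)) (pr m) +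
      avZ (fun n => ∑ q ∈ oct m, Real.log
        ((∑ r ∈ range q, Real.exp (t q (wd (tupg x d) L n) r)) / q))

/-! ## 2. Pairs of fields of signs -/

/-- EXG. The exponential moments of the bilinear tests under independence, two functions. -/
def T_EXG : Prop := ∃ C : ℝ, 1 ≤ C ∧ ∀ h : ℕ, ∃ w₀ : ℕ, ∀ (w m : ℕ) (f g : ℕ → ℝ), w₀ ≤ w →
  w / 400 ≤ m → m < w / 200 → (∀ t, |f t| ≤ 1) → (∀ t, |g t| ≤ 1) →
  ∑ q ∈ oct m, (∑ r₀ ∈ range q, avE (2 ^ rho w) (2 ^ (w - rho w)) (fun e =>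
      Real.exp ((w : ℝ) / 10 ^ 6 *
        ‖smp (fg f g q h) m (kA q r₀ 0) e (2 ^ rho w)‖ ^ 2))) / q ≤ C * (oct m).card

/-- LVG. One level, two fields. -/
def T_LVG : Prop := ∀ h c : ℕ, 2 * h + 2 ≤ 2 ^ c → ∃ (C : ℝ) (w₀ : ℕ), 0 < C ∧
  ∀ (N w : ℕ) [NeZero N] (x y : ZMod N → Bool), w₀ ≤ w → primorial (2 ^ (w / 200)) ∣ N →
  avZ (fun n => ∑ q ∈ EB.QQ w, 1 / (q : ℝ) *
      ‖wm (fg (ltr x n) (ltr y n) q h) w (kA q n.val 0)‖ ^ 2) ≤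
    C * (infg (fun n => (x n, y n)) w c + 1 / w)

/-- CYG. All levels on the cyclic group, two fields. -/
def T_CYG : Prop := ∀ h : ℕ, ∃ (C : ℝ) (w₀ : ℕ), 0 < C ∧ ∀ (N K : ℕ) [NeZero N]
  (x y : ZMod N → Bool) (w : ℕ → ℕ), w₀ ≤ w 0 → (∀ j, j + 1 < K → 400 * w j ≤ w (j + 1)) →
  (∀ j < K, primorial (2 ^ (w j / 200)) ∣ N) →
  ∑ j ∈ range K, avZ (fun n => ∑ q ∈ EB.QQ (w j), 1 / (q : ℝ) *
      ‖wm (fg (ltr x n) (ltr y n) q h) (w j) (kA q n.val 0)‖ ^ 2) ≤ C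

/-- the correlation of `f m g (m + q h)` with `q 1_(q | m) - 1` on the window `(n, n + T]` -/
noncomputable def tp (f g : ℕ → ℝ) (q T h n : ℕ) : ℝ :=
  (∑ m ∈ Ioc n (n + T), f m * g (m + q * h) * EB.D q m) / T

/-- BKG. The levels on one block of integers, two functions with values `1`, `-1`. -/
def T_BKG : Prop := ∀ h : ℕ, ∃ (C : ℝ) (w₀ : ℕ), 0 < C ∧ ∀ (N K i : ℕ) [NeZero N]
  (f g : ℕ → ℝ) (w : ℕ → ℕ), 1 ≤ i → (∀ n, 1 ≤ n → f n = 1 ∨ f n = -1) →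
  (∀ n, 1 ≤ n → g n = 1 ∨ g n = -1) → w₀ ≤ w 0 →
  (∀ j, j + 1 < K → 400 * w j ≤ w (j + 1)) → (∀ j < K, primorial (2 ^ (w j / 200)) ∣ N) →
  ∑ j ∈ range K, (∑ k ∈ range N, ∑ q ∈ EB.QQ (w j), 1 / (q : ℝ) *
      tp f g q (2 ^ w j) h (i * N + k) ^ 2) / (N : ℝ) ≤
    C * (1 + (∑ j ∈ range K, (2 : ℝ) ^ w j) / (N : ℝ))

/-- EBG. All levels, logarithmic means, two functions with values `1`, `-1`. -/
def T_EBG : Prop := ∀ h : ℕ, ∃ (C : ℝ) (w₀ : ℕ), 0 < C ∧ ∀ (K : ℕ) (w : ℕ → ℕ), w₀ ≤ w 0 →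
  (∀ j, j + 1 < K → 400 * w j ≤ w (j + 1)) → ∃ X₀ : ℝ, ∀ (X : Wn) (f g : ℕ → ℝ), X₀ ≤ X.L →
  (∀ n, 1 ≤ n → f n = 1 ∨ f n = -1) → (∀ n, 1 ≤ n → g n = 1 ∨ g n = -1) →
  ∑ j ∈ range K, wlg X (fun n => ∑ q ∈ EB.QQ (w j), 1 / (q : ℝ) *
    tp f g q (2 ^ w j) h n ^ 2) ≤ C * X.L

/-- EBR. The same for two functions with values in `[-1, 1]`. -/
def T_EBR : Prop := ∀ h : ℕ, ∃ (C : ℝ) (w₀ : ℕ), 0 < C ∧ ∀ (K : ℕ) (w : ℕ → ℕ), w₀ ≤ w 0 →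
  (∀ j, j + 1 < K → 400 * w j ≤ w (j + 1)) → ∃ X₀ : ℝ, ∀ (X : Wn) (f g : ℕ → ℝ), X₀ ≤ X.L →
  (∀ n, |f n| ≤ 1) → (∀ n, |g n| ≤ 1) →
  ∑ j ∈ range K, wlg X (fun n => ∑ q ∈ EB.QQ (w j), 1 / (q : ℝ) *
    tp f g q (2 ^ w j) h n ^ 2) ≤ C * X.L

/-- the correlation of `f m conj (f (m + q h))` with `q 1_(q | m) - 1` on the window -/
noncomputable def tc (f : ℕ → ℂ) (q T h n : ℕ) : ℂ :=
  (∑ m ∈ Ioc n (n + T), f m * starRingEnd ℂ (f (m + q * h)) * (EB.D q m : ℂ)) / T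

/-- GLC. A good level between two bounds, complex values. -/
def T_GLC : Prop := ∀ (H W₀ : ℕ) (ε : ℝ), 0 < ε → ∃ (W₁ : ℕ) (X₀ : ℝ), ∀ (X : Wn)
  (f : ℕ → ℂ), X₀ ≤ X.L → (∀ n, ‖f n‖ ≤ 1) →
  ∃ w, W₀ ≤ w ∧ w ≤ W₁ ∧ ∑ h ∈ range (H + 1), wlg X (fun n => ∑ q ∈ EB.QQ w, 1 / (q : ℝ) *
    ‖tc f q (2 ^ w) h n‖ ^ 2) ≤ ε * X.L

/-! ## 3. Filters -/

/-- the mean square of the filter `c` at the shifts `0, q, …, H q` on the window `(n, n + L]` -/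
noncomputable def flc (f : ℕ → ℂ) (H L q n : ℕ) (c : ℕ → ℂ) : ℝ :=
  (∑ m ∈ Ioc n (n + L), ‖∑ h ∈ range (H + 1), c h * f (m + q * h)‖ ^ 2) / L

/-- the smallest mean square of a filter of `ℓ²` norm one -/
noncomputable def psc (f : ℕ → ℂ) (H L q n : ℕ) : ℝ :=
  ⨅ c : {c : ℕ → ℂ // Flt H c}, flc f H L q n c

/-- multiplicative functions with values in the unit disc (products with one prime factor) -/
structure Mul (f : ℕ → ℂ) : Prop where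
  bd : ∀ n, ‖f n‖ ≤ 1
  pr : ∀ p n : ℕ, p.Prime → 1 ≤ n → ¬ p ∣ n → f (p * n) = f p * f n

/-- PSC. The basic properties of `psc`. -/
def T_PSC : Prop := ∀ (f : ℕ → ℂ) (H L q n : ℕ), (∀ n, ‖f n‖ ≤ 1) →
  0 ≤ psc f H L q n ∧ psc f H L q n ≤ 1 ∧
  (∀ c : ℕ → ℂ, 1 ≤ ∑ h ∈ range (H + 1), ‖c h‖ ^ 2 → psc f H L q n ≤ flc f H L q n c) ∧
  ∀ δ : ℝ, 0 < δ → ∃ c : ℕ → ℂ, Flt H c ∧ flc f H L q n c ≤ psc f H L q n + δ

/-- MPC. The relations pass down to shorter windows. -/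
def T_MPC : Prop := ∀ (f : ℕ → ℂ) (H L L' q n : ℕ), (∀ n, ‖f n‖ ≤ 1) → 1 ≤ L' → L' ≤ L →
  (∑ u ∈ Ioc n (n + L), psc f H L' q u) / L ≤
    psc f H L q n + 2 * ((H : ℝ) + 1) ^ 2 * L' / L

/-- LPC. The same for the logarithmic means. -/
def T_LPC : Prop := ∀ (f : ℕ → ℂ) (H L L' q : ℕ) (X : Wn), (∀ n, ‖f n‖ ≤ 1) →
  1 ≤ L' → L' ≤ L →
  wlg X (fun n => psc f H L' q n) ≤ wlg X (fun n => psc f H L q n) + 10 * (1 + Real.log L) +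
    2 * ((H : ℝ) + 1) ^ 2 * L' / L * (1 + X.L)

/-- DPC. Dilation. -/
def T_DPC : Prop := ∀ (f : ℕ → ℂ) (H T q n : ℕ) (c : ℕ → ℂ), Mul f → q.Prime → q ≤ T →
  (∀ h, ‖c h‖ ≤ 1) →
  flc f H T q n c ≤ flc f H (T / q) 1 (n / q) c +
    2 * ((H : ℝ) + 1) * ∑ k ∈ range (H + 1), ‖tc f q T k n‖ +
      20 * ((H : ℝ) + 1) ^ 3 * ((q : ℝ) / T + 1 / q)

/-- SFC. Relations between the multiples of the primes of one level. -/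
def T_SFC : Prop := ∀ (H W₀ : ℕ) (c : ℝ), 0 < c → ∃ (Ls W₁ : ℕ) (X₀ : ℝ), 1 ≤ Ls ∧
  ∀ (X : Wn) (f : ℕ → ℂ), X₀ ≤ X.L → Mul f →
  wlg X (fun n => psc f H Ls 1 n) ≤ c * X.L →
  ∃ w, W₀ ≤ w ∧ w ≤ W₁ ∧ ∑ q ∈ EB.QQ w, 1 / (q : ℝ) * wlg X (fun n => psc f H (2 ^ w) q n) ≤
    2 * c * (∑ q ∈ EB.QQ w, 1 / (q : ℝ)) * X.L

/-- SOC. Relations between the multiples of the primes of one octave. -/
def T_SOC : Prop := ∀ (H m₀ : ℕ) (c : ℝ), 0 < c → ∃ (Ls W₁ : ℕ) (X₀ : ℝ), 1 ≤ Ls ∧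
  ∀ (X : Wn) (f : ℕ → ℂ), X₀ ≤ X.L → Mul f →
  wlg X (fun n => psc f H Ls 1 n) ≤ c * X.L →
  ∃ m w : ℕ, m₀ ≤ m ∧ 2 * m ≤ w ∧ w ≤ W₁ ∧
    ∑ q ∈ oct m, wlg X (fun n => psc f H (2 ^ w) q n) ≤ 4 * c * (oct m).card * X.L

/-- RBC. RZF in the notation of this page. -/
def T_RBC : Prop := ∀ (H : ℕ) (τ : ℝ), 0 < τ → ∃ R B m₀ : ℕ, 1 ≤ B ∧ ∀ m w : ℕ, m₀ ≤ m →
  2 * m ≤ w → ∀ f : ℕ → ℂ, (∀ n, ‖f n‖ ≤ 1) → ∀ c : ℕ → ℕ → ℂ,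
  (∀ q, 1 ≤ ∑ h ∈ range (H + 1), ‖c q h‖ ^ 2) →
  ∀ n : ℕ, ∃ (b : ℕ → ℕ → ℂ) (β : ℕ → ℕ → ℝ), (∀ t r, ‖b t r‖ ≤ 1) ∧
  (∑ t ∈ range (2 ^ w), (∑ x ∈ Ioc (n + 1 + t) (n + 1 + t + B * 2 ^ m), ‖f x -
      ∑ r ∈ range R, b t r * ee (β t r * x)‖ ^ 2) / ((B * 2 ^ m : ℕ) : ℝ)) / 2 ^ w ≤
    2 * ((∑ q ∈ oct m, flc f H (2 ^ w) q n (c q)) / (oct m).card) + τ

/-! ## 4. The theorem for a class of functions -/

/-- (H0) for a class of functions -/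
def HZ (𝓕 : Set (ℕ → ℂ)) : Prop := ∃ (c : ℝ) (K : ℕ), 0 < c ∧ ∀ R : ℕ, ∃ H₀ : ℕ, ∀ (X : Wn)
  (H : ℕ), ∀ f ∈ 𝓕, H₀ ≤ H → K * Real.log H ≤ X.L →
  ∀ (b : ℕ → ℕ → ℂ) (β : ℕ → ℕ → ℝ), (∀ n r, ‖b n r‖ ≤ 1) →
    c * X.L < wlg X (fun n => (∑ m ∈ Ioc n (n + H),
      ‖f m - ∑ r ∈ range R, b n r * ee (β n r * m)‖ ^ 2) / H)

/-- (RZ) for a class of functions -/
def RZ (𝓕 : Set (ℕ → ℂ)) : Prop := ∃ (c : ℝ) (K : ℕ), 0 < c ∧ ∀ H : ℕ, ∃ L₀ : ℕ, ∀ (X : Wn)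
  (L : ℕ), ∀ f ∈ 𝓕, L₀ ≤ L → K * Real.log L ≤ X.L →
  ∀ a : ℕ → ℕ → ℂ, (∀ n, 1 ≤ ∑ h ∈ range (H + 1), ‖a n h‖ ^ 2) →
  c * X.L < wlg X (fun n => flc f H L 1 n (a n))

/-- RZC. The theorem: (H0) implies (RZ) for every class of multiplicative functions with values in
the unit disc. -/
def T_RZC : Prop := ∀ 𝓕 : Set (ℕ → ℂ), (∀ f ∈ 𝓕, Mul f) → HZ 𝓕 → RZ 𝓕

end Pool.Agent.H87.QP
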