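import Pool.Agent.H87.QP.Targets
import Pool.Agent.H40.ES.BK

/-!
# Row BKH: the levels on one block of integers (MP_c59857_nt)
-/

set_option autoImplicit false

namespace Pool.Agent.H87.QP

open Finset Pool.Agent.H18.MR Pool.Agent.H93.DE Pool.Agent.H6.N4D Pool.Agent.H93
  Pool.Agent.H93.ES Pool.Agent.H28.NW
open Pool.Agent.H40.ES (D_sum QQ_facts blk_sum)

theorem tq_le3 {lam : ℕ → ℝ} (hl : ∀ n, 1 ≤ n → lam n = 1 ∨ lam n = -1) {q L : ℕ} (n h : ℕ)
    (hq : 1 ≤ q) (hqL : q ≤ L) : |tq lam q L h n| ≤ 3 := by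
  unfold tq
  have hL : (0 : ℝ) < L := by
    have : 0 < L := by omega
    exact_mod_cast this
  rw [abs_div, Nat.abs_cast, div_le_iff₀ hL]
  refine (abs_sum_le_sum_abs _ _).trans ((sum_le_sum fun m hm => ?_).trans (D_sum q n L hq hqL))
  have h2 := (mem_Ioc.1 hm).1
  have h1 : |lam m| = 1 := by
    rcases hl m (by omega) with h | h <;> rw [h] <;> norm_num
  have h3 : |lam (m + q * h)| = 1 := by
    rcases hl (m + q * h) (by omega) with h | h <;> rw [h] <;> norm_num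
  rw [abs_mul, abs_mul, h1, h3, one_mul, one_mul]

theorem pf_BKH (hC : T_CYH) (hW : T_WIH) (hQ : T_QSU) : T_BKH := by
  intro h
  obtain ⟨C, w₀, hC0, hC⟩ := hC h
  obtain ⟨W, hW0, hQ⟩ := hQ
  refine ⟨C + 9 * W * (h + 1), w₀, by positivity, ?_⟩
  intro N K i _ lam w hi hl hw0 hw hN
  have hNpos : 0 < N := NeZero.pos N
  have hN0 : (0 : ℝ) < N := by exact_mod_cast hNpos
  have h1 := hC N K (blk lam N i) w hw0 hw hN
  have h5 : ∑ j ∈ range K, (∑ k ∈ range N, ∑ q ∈ EB.QQ (w j), 1 / (q : ℝ) *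
      tq lam q (2 ^ w j) h (i * N + k) ^ 2) / (N : ℝ) ≤
      ∑ j ∈ range K, (avZ (fun n => ∑ q ∈ EB.QQ (w j), 1 / (q : ℝ) *
        ‖wm (fh (ltr (blk lam N i) n) q h) (w j) (kA q n.val 0)‖ ^ 2) +
          9 * W * ((2 ^ w j * (h + 1) : ℕ) : ℝ) / N) := by
    refine sum_le_sum fun j hj => ?_
    have hj' := mem_range.1 hj
    refine blk_sum (2 ^ w j * (h + 1)) (fun k => ∑ q ∈ EB.QQ (w j), 1 / (q : ℝ) *
      tq lam q (2 ^ w j) h (i * N + k) ^ 2) _ (9 * W) (by positivity) ?_ ?_ ?_ ?_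
    · intro k _
      calc ∑ q ∈ EB.QQ (w j), 1 / (q : ℝ) * tq lam q (2 ^ w j) h (i * N + k) ^ 2
          ≤ ∑ q ∈ EB.QQ (w j), 1 / (q : ℝ) * 9 := by
            refine sum_le_sum fun q hq => ?_
            obtain ⟨h1, h2, -⟩ := QQ_facts hq
            have h3 := tq_le3 hl (i * N + k) h h1 h2
            have h4 : tq lam q (2 ^ w j) h (i * N + k) ^ 2 ≤ 9 := by
              rw [← sq_abs]
              have h5 := abs_nonneg (tq lam q (2 ^ w j) h (i * N + k))
              nlinarith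
            exact mul_le_mul_of_nonneg_left h4 (by positivity)
        _ = 9 * ∑ q ∈ EB.QQ (w j), 1 / (q : ℝ) := by
            rw [← sum_mul]
            ring
        _ ≤ _ := by
            have := hQ (w j)
            linarith
    · intro n
      positivity
    · intro k hk
      refine sum_le_sum fun q hq => ?_
      obtain ⟨h1, h2, h3⟩ := QQ_facts hq
      have hqh : q * h ≤ 2 ^ w j * h := Nat.mul_le_mul_right h h2
      have hk1 : k + 1 < N := by
        have : 1 ≤ 2 ^ w j := Nat.one_le_two_pow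
        nlinarith
      have hv : ((k + 1 : ℕ) : ZMod N).val = k + 1 := ZMod.val_natCast_of_lt hk1
      have h4 := hW N (w j) i q h lam ((k + 1 : ℕ) : ZMod N) hi hl h1 (h3 N (hN j hj'))
        (by rw [hv]; nlinarith)
      rw [hv] at h4
      have h5 : i * N + (k + 1) - 1 = i * N + k := by omega
      rw [h5] at h4
      have h6 : tq lam q (2 ^ w j) h (i * N + k) ^ 2 =
          ‖wm (fh (ltr (blk lam N i) ((k + 1 : ℕ) : ZMod N)) q h) (w j)
            (kA q ((k + 1 : ℕ) : ZMod N).val 0)‖ ^ 2 := by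
        rw [hv, ← h4, sq_abs]
      rw [h6]
    · have : 1 ≤ 2 ^ w j := Nat.one_le_two_pow
      nlinarith
  rw [sum_add_distrib] at h5
  have h6 : ∑ j ∈ range K, 9 * W * ((2 ^ w j * (h + 1) : ℕ) : ℝ) / N =
      9 * W * (h + 1) * ((∑ j ∈ range K, (2 : ℝ) ^ w j) / (N : ℝ)) := by
    rw [sum_div, mul_sum]
    refine sum_congr rfl fun j _ => ?_
    push_cast
    ring
  rw [h6] at h5
  have h7 : 0 ≤ (∑ j ∈ range K, (2 : ℝ) ^ w j) / (N : ℝ) := by positivity
  have h8 : 0 ≤ 9 * W * ((h : ℝ) + 1) := by positivity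
  nlinarith [mul_nonneg hC0.le h7]

end Pool.Agent.H87.QP
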