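import Pool.Agent.H87.QP.Defs

/-!
# Local autocorrelations of Liouville's function (MP_c59857_nt), theorem (QP): statements

All logarithmic means are taken over a window `X : Wn`.
-/

set_option autoImplicit false

namespace Pool.Agent.H87.QP

open Finset Pool.Agent.H18.MR Pool.Agent.H93.DE Pool.Agent.H6.N4D Pool.Agent.H93
  Pool.Agent.H93.ES Pool.Agent.H28.NW

/-! ## 1. The cyclic group -/

/-- LS2. The bilinear large sieve for the classes modulo the primes of an octave. -/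
def T_LS2 : Prop := ∃ C : ℝ, 1 ≤ C ∧ ∀ (m h T : ℕ) (f g : ℤ → ℝ), (∀ t, |f t| ≤ 1) →
  (∀ t, |g t| ≤ 1) → 2 ^ (8 * m + 20) * (h + 1) ≤ T →
  ∑ q ∈ oct m, (∑ r ∈ range q,
    |(∑ t ∈ range T, f t * g (t + q * h) * DR q (r + t)) / T|) / q ≤ C * 2 ^ (3 * (m : ℝ) / 4)

/-- EXB. The exponential moments of the bilinear tests under independence. -/
def T_EXB : Prop := ∃ C : ℝ, 1 ≤ C ∧ ∀ h : ℕ, ∃ w₀ : ℕ, ∀ (w m : ℕ) (f : ℕ → ℝ), w₀ ≤ w →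
  w / 400 ≤ m → m < w / 200 → (∀ t, |f t| ≤ 1) →
  ∑ q ∈ oct m, (∑ r₀ ∈ range q, avE (2 ^ rho w) (2 ^ (w - rho w)) (fun e =>
      Real.exp ((w : ℝ) / 10 ^ 6 *
        ‖smp (fh f q h) m (kA q r₀ 0) e (2 ^ rho w)‖ ^ 2))) / q ≤ C * (oct m).card

/-- LVS. The decrement between two octaves, words of length `2 ^ (m + c)`. -/
def T_LVS : Prop := ∀ (γ : Type) [Fintype γ] [DecidableEq γ] (N a b c : ℕ) [NeZero N]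
  (x : ZMod N → γ), a ≤ b → primorial (2 ^ b) ∣ N →
  ∑ m ∈ Ico a b, info x (2 ^ (m + c)) (primorial (2 ^ m)) (pr m) / 2 ^ (m + c) ≤
    hc x (2 ^ (a + c)) (primorial (2 ^ a)) / 2 ^ (a + c) -
      hc x (2 ^ (b + c)) (primorial (2 ^ b)) / 2 ^ (b + c)

/-- CHS. All levels: the sum of the information of the samples is bounded. -/
def T_CHS : Prop := ∀ (N K c : ℕ) [NeZero N] (x : ZMod N → Bool) (w : ℕ → ℕ),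
  10 ^ 5 + 100 * c ≤ w 0 → (∀ j, j + 1 < K → 400 * w j ≤ w (j + 1)) →
  (∀ j < K, primorial (2 ^ (w j / 200)) ∣ N) → ∑ j ∈ range K, infs x (w j) c ≤ 2

/-- DVS. The inequality of Donsker and Varadhan for the primes of one octave, words of any
length. -/
def T_DVS : Prop := ∀ (N R m L : ℕ) [NeZero N] (x : ZMod N → Bool) (d : Fin R → ℕ)
  (t : ℕ → (Fin L → Fin R → Bool) → ℕ → ℝ), primorial (2 ^ (m + 1)) ∣ N →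
  avZ (fun n => ∑ q ∈ oct m, t q (wd (tup x d) L n) (n.val % q)) ≤
    info (tup x d) L (primorial (2 ^ m)) (pr m) +
      avZ (fun n => ∑ q ∈ oct m, Real.log
        ((∑ r ∈ range q, Real.exp (t q (wd (tup x d) L n) r)) / q))

/-- LVH. One level. -/
def T_LVH : Prop := ∀ h c : ℕ, 2 * h + 2 ≤ 2 ^ c → ∃ (C : ℝ) (w₀ : ℕ), 0 < C ∧
  ∀ (N w : ℕ) [NeZero N] (x : ZMod N → Bool), w₀ ≤ w → primorial (2 ^ (w / 200)) ∣ N →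
  avZ (fun n => ∑ q ∈ EB.QQ w, 1 / (q : ℝ) *
      ‖wm (fh (ltr x n) q h) w (kA q n.val 0)‖ ^ 2) ≤ C * (infs x w c + 1 / w)

/-- CYH. All levels on the cyclic group. -/
def T_CYH : Prop := ∀ h : ℕ, ∃ (C : ℝ) (w₀ : ℕ), 0 < C ∧ ∀ (N K : ℕ) [NeZero N]
  (x : ZMod N → Bool) (w : ℕ → ℕ), w₀ ≤ w 0 → (∀ j, j + 1 < K → 400 * w j ≤ w (j + 1)) →
  (∀ j < K, primorial (2 ^ (w j / 200)) ∣ N) →
  ∑ j ∈ range K, avZ (fun n => ∑ q ∈ EB.QQ (w j), 1 / (q : ℝ) *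
      ‖wm (fh (ltr x n) q h) (w j) (kA q n.val 0)‖ ^ 2) ≤ C

/-! ## 2. From the cyclic group to the integers -/

/-- WIH. Windows inside a block. -/
def T_WIH : Prop := ∀ (N w i q h : ℕ) [NeZero N] (lam : ℕ → ℝ) (k : ZMod N), 1 ≤ i →
  (∀ n, 1 ≤ n → lam n = 1 ∨ lam n = -1) → 1 ≤ q → q ∣ N → k.val + 2 ^ w + q * h ≤ N →
  |tq lam q (2 ^ w) h (i * N + k.val - 1)| =
    ‖wm (fh (ltr (blk lam N i) k) q h) w (kA q k.val 0)‖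

/-- BKH. The levels on one block of integers. -/
def T_BKH : Prop := ∀ h : ℕ, ∃ (C : ℝ) (w₀ : ℕ), 0 < C ∧ ∀ (N K i : ℕ) [NeZero N]
  (lam : ℕ → ℝ) (w : ℕ → ℕ), 1 ≤ i → (∀ n, 1 ≤ n → lam n = 1 ∨ lam n = -1) → w₀ ≤ w 0 →
  (∀ j, j + 1 < K → 400 * w j ≤ w (j + 1)) → (∀ j < K, primorial (2 ^ (w j / 200)) ∣ N) →
  ∑ j ∈ range K, (∑ k ∈ range N, ∑ q ∈ EB.QQ (w j), 1 / (q : ℝ) *
      tq lam q (2 ^ w j) h (i * N + k) ^ 2) / (N : ℝ) ≤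
    C * (1 + (∑ j ∈ range K, (2 : ℝ) ^ w j) / (N : ℝ))

/-- EBH. All levels, logarithmic means. -/
def T_EBH : Prop := ∀ h : ℕ, ∃ (C : ℝ) (w₀ : ℕ), 0 < C ∧ ∀ (K : ℕ) (w : ℕ → ℕ), w₀ ≤ w 0 →
  (∀ j, j + 1 < K → 400 * w j ≤ w (j + 1)) → ∃ X₀ : ℝ, ∀ (X : Wn) (lam : ℕ → ℝ), X₀ ≤ X.L →
  (∀ n, 1 ≤ n → lam n = 1 ∨ lam n = -1) →
  ∑ j ∈ range K, wlg X (fun n => ∑ q ∈ EB.QQ (w j), 1 / (q : ℝ) *
    tq lam q (2 ^ w j) h n ^ 2) ≤ C * X.L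

/-- GLV. A good level between two bounds. -/
def T_GLV : Prop := ∀ (H W₀ : ℕ) (ε : ℝ), 0 < ε → ∃ (W₁ : ℕ) (X₀ : ℝ), ∀ (X : Wn)
  (lam : ℕ → ℝ), X₀ ≤ X.L → (∀ n, 1 ≤ n → lam n = 1 ∨ lam n = -1) →
  ∃ w, W₀ ≤ w ∧ w ≤ W₁ ∧ ∑ h ∈ Icc 1 H, wlg X (fun n => ∑ q ∈ EB.QQ w, 1 / (q : ℝ) *
    tq lam q (2 ^ w) h n ^ 2) ≤ ε * X.L

/-! ## 3. Near periods of the windows -/

/-- DIL. Dilation: the multiples of `q`. -/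
def T_DIL : Prop := ∀ (lam : ℕ → ℝ) (q T n h : ℕ), Lio lam → q.Prime → q ≤ T →
  |rh lam (T / q) (n / q) h| ≤ |rh lam T n (q * h)| + |tq lam q T h n| + 4 * q / T

/-- MNW. A long window and its short subwindows. -/
def T_MNW : Prop := ∀ (lam : ℕ → ℝ) (H q L L' n : ℕ), 1 ≤ L' → L' ≤ L →
  (∀ n, |lam n| ≤ 1) →
  mx H (fun h => |rh lam L n (q * h)|) ≤
    (∑ u ∈ Ioc n (n + L), mx H (fun h => |rh lam L' u (q * h)|)) / L + 2 * L' / L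

/-- MLN. Monotonicity in the length, logarithmic means. -/
def T_MLN : Prop := ∀ (lam : ℕ → ℝ) (H q L L' : ℕ) (X : Wn), 1 ≤ L' → L' ≤ L →
  (∀ n, |lam n| ≤ 1) →
  wlg X (fun n => mx H (fun h => |rh lam L n (q * h)|)) ≤
    wlg X (fun n => mx H (fun h => |rh lam L' n (q * h)|)) + 10 * (1 + Real.log L) +
      2 * L' / L * (1 + X.L)

/-- QLB. The sum of the reciprocals of the primes of a level is not small. -/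
def T_QLB : Prop := ∃ (s₀ : ℝ) (w₀ : ℕ), 0 < s₀ ∧ ∀ w : ℕ, w₀ ≤ w →
  s₀ ≤ ∑ q ∈ EB.QQ w, 1 / (q : ℝ)

/-- SE1. Near periods which are multiples of the primes of one level. -/
def T_SE1 : Prop := ∀ (H W₀ : ℕ) (c : ℝ), 1 ≤ H → 0 < c → ∃ (Ls W₁ : ℕ) (X₀ : ℝ), 1 ≤ Ls ∧
  ∀ (X : Wn) (lam : ℕ → ℝ), X₀ ≤ X.L → Lio lam →
  wlg X (fun n => 1 - mx H (fun h => |rh lam Ls n h|)) ≤ c * X.L →
  ∃ w, W₀ ≤ w ∧ w ≤ W₁ ∧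
    ∑ q ∈ EB.QQ w, 1 / (q : ℝ) * wlg X (fun n => 1 - mx H (fun h => |rh lam (2 ^ w) n (q * h)|)) ≤
      2 * c * (∑ q ∈ EB.QQ w, 1 / (q : ℝ)) * X.L

/-- SEL. Near periods which are multiples of the primes of one octave, for short windows. -/
def T_SEL : Prop := ∀ (H B m₀ : ℕ) (c : ℝ), 1 ≤ H → 0 < c → ∃ (Ls m₁ : ℕ) (X₀ : ℝ), 1 ≤ Ls ∧
  ∀ (X : Wn) (lam : ℕ → ℝ), X₀ ≤ X.L → Lio lam →
  wlg X (fun n => 1 - mx H (fun h => |rh lam Ls n h|)) ≤ c * X.L →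
  ∃ m, m₀ ≤ m ∧ m ≤ m₁ ∧
    ∑ q ∈ oct m, wlg X (fun n => 1 - mx H (fun h => |rh lam (2 ^ (m + B)) n (q * h)|)) ≤
      6 * c * (oct m).card * X.L

/-! ## 4. Structure of one window -/

/-- PEN. The additive energy of the primes of an octave. -/
def T_PEN : Prop := ∃ C : ℝ, 0 < C ∧ ∀ (m : ℕ) (S : Finset ℕ), 1 ≤ m →
  (∀ q ∈ S, q.Prime ∧ 2 ^ m ≤ q ∧ q ≤ 2 ^ (m + 1)) →
  ((((S ×ˢ S) ×ˢ (S ×ˢ S)).filter (fun x => x.1.1 + x.2.1 = x.1.2 + x.2.2)).card : ℝ) ≤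
    C * 2 ^ (3 * m) / (m : ℝ) ^ 4

/-- FOU. The function `x ↦ mean over q, q' of ε_q ε_q' g (x + (q - q') h)` is a sum of few
exponentials, up to a function with small mean square. -/
def T_FOU : Prop := ∀ (M h : ℕ) [NeZero M] (Q : Finset ℕ) (ε : ℕ → ℝ) (g : ZMod M → ℂ) (τ : ℝ),
  0 < τ → 1 ≤ h → Q.Nonempty → (∀ q ∈ Q, 4 * (q * h) < M) → (∀ q, |ε q| ≤ 1) →
  (∀ x, ‖g x‖ ≤ 1) → ∃ (S : Finset (ZMod M)) (b : ZMod M → ℂ),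
  (S.card : ℝ) ≤ M *
    ((((Q ×ˢ Q) ×ˢ (Q ×ˢ Q)).filter (fun x => x.1.1 + x.2.1 = x.1.2 + x.2.2)).card : ℝ) /
      (τ ^ 2 * (Q.card : ℝ) ^ 4) ∧ (∀ ξ, ‖b ξ‖ ≤ 1) ∧
  ∑ x : ZMod M, ‖(∑ q ∈ Q, ∑ q' ∈ Q, ((ε q * ε q' : ℝ) : ℂ) *
      g (x + ((q * h : ℕ) : ZMod M) - ((q' * h : ℕ) : ZMod M))) / (Q.card : ℂ) ^ 2 -
    ∑ ξ ∈ S, b ξ * ee ((ξ.val : ℝ) / M * x.val)‖ ^ 2 ≤ τ ^ 2 * M

/-- NEA. A function with many near periods is near to the mean of its translates by the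
differences of the near periods. -/
def T_NEA : Prop := ∀ (f : ℕ → ℝ) (n S A h : ℕ) (Q : Finset ℕ) (ε : ℕ → ℝ) (η : ℝ),
  (∀ t, f t = 1 ∨ f t = -1) → Q.Nonempty → (∀ q ∈ Q, q * h ≤ A) → A ≤ n → A ≤ S →
  (∀ q ∈ Q, ε q = 1 ∨ ε q = -1) → (∀ q ∈ Q, 1 - η ≤ ε q * rh f S n (q * h)) →
  ∑ x ∈ Ioc n (n + S), (f x - (∑ q ∈ Q, ∑ q' ∈ Q, ε q * ε q' * f (x + q * h - q' * h)) /
    (Q.card : ℝ) ^ 2) ^ 2 ≤ 8 * η * S + 4 * A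

/-- MOD. A window with many near periods is near to a sum of few exponentials. -/
def T_MOD : Prop := ∀ (H : ℕ) (η : ℝ), 1 ≤ H → 0 < η → η ≤ 1 → ∃ B R m₀ : ℕ,
  ∀ (m n : ℕ) (f : ℕ → ℝ), m₀ ≤ m → 2 ^ (m + 1) * H ≤ n → (∀ t, f t = 1 ∨ f t = -1) →
  ((oct m).card : ℝ) / 2 ≤
    (((oct m).filter (fun q => 1 - η ≤ mx H (fun h => |rh f (2 ^ (m + B)) n (q * h)|))).card : ℝ) →
  ∃ (b : ℕ → ℂ) (β : ℕ → ℝ), (∀ r, ‖b r‖ ≤ 1) ∧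
    (∑ x ∈ Ioc n (n + 2 ^ (m + B)), ‖(f x : ℂ) - ∑ r ∈ range R, b r * ee (β r * x)‖ ^ 2) /
      ((2 ^ (m + B) : ℕ) : ℝ) ≤ 100 * η

/-! ## 5. The theorem -/

/-- QPL. The theorem for functions with the properties of Liouville's function: absolute constants
`c` and `K`, all windows `X`. -/
def T_QPL : Prop := ∃ (c : ℝ) (K : ℕ), 0 < c ∧ ∀ H : ℕ, ∃ L₀ : ℕ, ∀ (X : Wn) (L : ℕ)
  (lam : ℕ → ℝ), L₀ ≤ L → K * Real.log L ≤ X.L → Lio lam →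
  wlg X (fun n => mx H (fun h => |rh lam L n h|)) ≤ (1 - c) * X.L

/-- QPS. The same with a shift chosen for every window. -/
def T_QPS : Prop := ∃ (c : ℝ) (K : ℕ), 0 < c ∧ ∀ H : ℕ, ∃ L₀ : ℕ, ∀ (X : Wn) (L : ℕ)
  (lam : ℕ → ℝ) (σ : ℕ → ℕ), L₀ ≤ L → K * Real.log L ≤ X.L → Lio lam →
  (∀ n, 1 ≤ σ n ∧ σ n ≤ H) →
  wlg X (fun n => |∑ m ∈ Icc 1 L, lam (n + m) * lam (n + m + σ n)|) ≤ (1 - c) * L * X.L

end Pool.Agent.H87.QP
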