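import Pool.Agent.H6.TP.EsOne
import Pool.Agent.H36.NW.BLU
import Pool.Agent.H6.QP.LS2
import Pool.Agent.H50.QP.EXB
import Pool.Agent.H31.QP.LVS
import Pool.Agent.H14.QP.CHS
import Pool.Agent.H14.QP.DVS
import Pool.Agent.H81.QP.LVH
import Pool.Agent.H79.QP.CYH
import Pool.Agent.H2.QP.WIH
import Pool.Agent.H2.QP.PSB
import Pool.Agent.H2.QP.MPS
import Pool.Agent.H3.QP.EBH
import Pool.Agent.H12.QP.DPS
import Pool.Agent.H57.QP.QLB

/-!
# Theorem (RZ), MP_c59857_nt: the rows which are closed (first part)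
-/

set_option autoImplicit false

namespace Pool.Agent.H87.QP.All

open Pool.Agent.H6.TP.Es

theorem aLS2 : T_LS2 := Pool.Agent.H6.QP.pf_LS2
theorem aEXB : T_EXB := Pool.Agent.H50.QP.pf_EXB tHFC tMEA aLS2 tPIL
theorem aLVS : T_LVS := Pool.Agent.H31.QP.pf_LVS
theorem aCHS : T_CHS := Pool.Agent.H14.QP.pf_CHS tUNI tSTA tMNT aLVS tEND
theorem aDVS : T_DVS := Pool.Agent.H14.QP.pf_DVS tUNI tDVF
theorem aLVH : T_LVH := Pool.Agent.H81.QP.pf_LVH aDVS aEXB tMEA tQSU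
theorem aCYH : T_CYH := Pool.Agent.H79.QP.pf_CYH aLVH aCHS
theorem aWIH : T_WIH := Pool.Agent.H2.QP.pf_WIH
theorem aQLB : T_QLB := Pool.Agent.H57.QP.pf_QLB tPIL
theorem aPSB : T_PSB := Pool.Agent.H2.QP.pf_PSB
theorem aMPS : T_MPS := Pool.Agent.H2.QP.pf_MPS aPSB
theorem aDPS : T_DPS := Pool.Agent.H12.QP.pf_DPS

/-- the good level from the block theorem -/
theorem glv_of (hB : T_BKH) : T_GLV :=
  Pool.Agent.H3.QP.pf_GLV (Pool.Agent.H3.QP.pf_EBH hB Pool.Agent.H36.NW.BLU.pf_BLU tQSU)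

end Pool.Agent.H87.QP.All
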