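import Pool.Agent.H93.ES.Targets
import Pool.Agent.H28.NW.Targets
import Pool.Agent.H3.GW.TargetsH

/-!
# Local autocorrelations of Liouville's function (MP_c59857_nt), theorem (QP): definitions
-/

set_option autoImplicit false

namespace Pool.Agent.H87.QP

open Finset Pool.Agent.H18.MR Pool.Agent.H93.DE Pool.Agent.H6.N4D Pool.Agent.H93
  Pool.Agent.H93.ES Pool.Agent.H28.NW

/-- the largest of the numbers `F 1, …, F H` -/
noncomputable def mx (H : ℕ) (F : ℕ → ℝ) : ℝ := ⨆ h : Fin H, F ((h : ℕ) + 1)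

/-- the product of `f` and its translate by `q h` -/
def fh (f : ℕ → ℝ) (q h t : ℕ) : ℝ := f t * f (t + q * h)

/-- the autocorrelation on the window `(n, n + T]` for the shift `a` -/
noncomputable def rh (lam : ℕ → ℝ) (T n a : ℕ) : ℝ :=
  (∑ m ∈ Ioc n (n + T), lam m * lam (m + a)) / T

/-- the correlation of `lam m lam (m + q h)` with `q 1_(q | m) - 1` on the window `(n, n + T]` -/
noncomputable def tq (lam : ℕ → ℝ) (q T h n : ℕ) : ℝ :=
  (∑ m ∈ Ioc n (n + T), lam m * lam (m + q * h) * EB.D q m) / T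

/-- the information of the samples of a window of length `2 ^ w` on the residues modulo the primes
of the octaves between `w / 400` and `w / 200`, for words of length `2 ^ (m + c)`, normalised -/
noncomputable def infs {N : ℕ} [NeZero N] (x : ZMod N → Bool) (w c : ℕ) : ℝ :=
  ∑ m ∈ Ico (w / 400) (w / 200), avE (2 ^ rho w) (2 ^ (w - rho w)) (fun e =>
    info (tup x (pos e)) (2 ^ (m + c)) (primorial (2 ^ m)) (pr m)) / (2 ^ rho w * 2 ^ (m + c))

lemma le_mx {H h : ℕ} (F : ℕ → ℝ) (h1 : 1 ≤ h) (h2 : h ≤ H) : F h ≤ mx H F := by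
  have : F h = (fun i : Fin H => F ((i : ℕ) + 1)) ⟨h - 1, by omega⟩ := by
    simp only
    congr 1
    omega
  rw [this]
  exact le_ciSup (Set.finite_range (fun i : Fin H => F ((i : ℕ) + 1))).bddAbove _

lemma exists_mx {H : ℕ} (F : ℕ → ℝ) (hH : 1 ≤ H) : ∃ h, 1 ≤ h ∧ h ≤ H ∧ mx H F = F h := by
  have : Nonempty (Fin H) := ⟨⟨0, hH⟩⟩
  obtain ⟨i, hi⟩ := exists_eq_ciSup_of_finite (f := fun i : Fin H => F ((i : ℕ) + 1))
  exact ⟨i + 1, by omega, i.2, hi.symm⟩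

lemma mx_le {H : ℕ} {F : ℕ → ℝ} {B : ℝ} (hH : 1 ≤ H) (h : ∀ i, 1 ≤ i → i ≤ H → F i ≤ B) :
    mx H F ≤ B := by
  obtain ⟨i, h1, h2, h3⟩ := exists_mx F hH
  rw [h3]
  exact h i h1 h2

lemma mx_nonneg (H : ℕ) {F : ℕ → ℝ} (h : ∀ i, 0 ≤ F i) : 0 ≤ mx H F :=
  Real.iSup_nonneg fun _ => h _

lemma mx_le_of_nonneg {H : ℕ} {F : ℕ → ℝ} {B : ℝ} (hB : 0 ≤ B)
    (h : ∀ i, 1 ≤ i → i ≤ H → F i ≤ B) : mx H F ≤ B := by
  rcases Nat.eq_zero_or_pos H with h0 | h0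
  · subst h0
    unfold mx
    rw [Real.iSup_of_isEmpty]
    exact hB
  · exact mx_le h0 h

lemma mx_mono {H : ℕ} {F G : ℕ → ℝ} (h : ∀ i, 1 ≤ i → i ≤ H → F i ≤ G i) (hG : ∀ i, 0 ≤ G i) :
    mx H F ≤ mx H G :=
  mx_le_of_nonneg (mx_nonneg H hG) fun i h1 h2 => (h i h1 h2).trans (le_mx G h1 h2)

lemma abs_rh_le {lam : ℕ → ℝ} (hl : ∀ n, |lam n| ≤ 1) (T n a : ℕ) : |rh lam T n a| ≤ 1 := by
  unfold rh
  rw [abs_div, Nat.abs_cast]
  refine div_le_one_of_le₀ ?_ (Nat.cast_nonneg _)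
  refine (abs_sum_le_sum_abs _ _).trans ?_
  calc ∑ m ∈ Ioc n (n + T), |lam m * lam (m + a)| ≤ ∑ m ∈ Ioc n (n + T), (1 : ℝ) :=
        sum_le_sum fun m _ => by
          rw [abs_mul]
          exact mul_le_one₀ (hl _) (abs_nonneg _) (hl _)
    _ = T := by simp

end Pool.Agent.H87.QP
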