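import Pool.Agent.H87.QP.Targets2
import Pool.Agent.H83.LI.Targets

/-!
# Theorem (RZ), MP_c59857_nt: the two forms of the theorem for functions with the properties of
Liouville's function
-/

set_option autoImplicit false

namespace Pool.Agent.H87.QP

open Finset Pool.Agent.H6.N4D Pool.Agent.H28.NW

lemma fl_eq (lam : ℕ → ℝ) (H L n : ℕ) (c : ℕ → ℂ) :
    fl lam H L 1 n c = (∑ m ∈ Icc 1 L, ‖∑ h ∈ range (H + 1),
      c h * ((lam (n + m + h) : ℝ) : ℂ)‖ ^ 2) / (L : ℝ) := by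
  unfold fl
  congr 1
  refine (sum_bij (fun m _ => n + m) ?_ ?_ ?_ ?_).symm
  · intro m hm
    rw [mem_Icc] at hm
    rw [mem_Ioc]
    omega
  · intro a _ b _ hab
    omega
  · intro b hb
    rw [mem_Ioc] at hb
    exact ⟨b - n, by rw [mem_Icc]; omega, by omega⟩
  · intro m _
    simp only [one_mul]

/-- the form of `Pool.Agent.H83.LI` -/
theorem pf_RZW (h : T_RZL) : Pool.Agent.H83.LI.T_RZL := by
  obtain ⟨c, K, hc, hH⟩ := h
  refine ⟨c, K, hc, fun H => ?_⟩
  obtain ⟨L₀, hL₀⟩ := hH H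
  refine ⟨L₀, fun X L lam a hL hK hlam ha => ?_⟩
  have h1 := hL₀ X L lam hL hK hlam a ha
  simp only [fl_eq] at h1
  exact h1

end Pool.Agent.H87.QP
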